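import Mathlib
import Pool.Agent.N251.GA.Leaves2

/-!
# Project GA2 (helper251), leaf Sym5 (helper492)
-/

set_option autoImplicit false

namespace Pool.Agent.N492.GA.Sym5

open Pool.Agent.N251.GA

section

variable {R : Type} [CommRing R]

/-- the first form -/
def fs (U z : R) : R := U * (U ^ 4 - 75 * U ^ 2 * z ^ 2 + 1500 * z ^ 4)

/-- the second form -/
def ft (U z : R) : R := -(50 * z ^ 3 * ((U + 6 * z) * (U - 6 * z)))

theorem ident (U z : R) : fs U z ^ 2 - 5 * ft U z ^ 2 =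
    (U ^ 2 - 20 * z ^ 2) ^ 3 * (U ^ 2 - 45 * z ^ 2) ^ 2 := by
  unfold fs ft
  ring

theorem coprime_st {U z : R} (hU : IsCoprime (12 * z) (U - 6 * z)) (h30 : (30 : R) ∣ z) :
    IsCoprime (fs U z) (ft U z) := by
  apply isCoprime_of_max
  intro P hP hs ht
  have hpr := hP.isPrime
  have h30' : (30 : R) ∈ P → z ∈ P := fun h => mem_of_dvd h30 h
  have h2 : (2 : R) ∈ P → z ∈ P := fun h =>
    h30' (mem_of_dvd (⟨15, by norm_num⟩ : (2 : R) ∣ 30) h)
  have h3 : (3 : R) ∈ P → z ∈ P := fun h =>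
    h30' (mem_of_dvd (⟨10, by norm_num⟩ : (3 : R) ∣ 30) h)
  have h5 : (5 : R) ∈ P → z ∈ P := fun h =>
    h30' (mem_of_dvd (⟨6, by norm_num⟩ : (5 : R) ∣ 30) h)
  have h576 : (576 : R) * z ^ 5 ∈ P → z ∈ P := by
    intro h
    rcases hpr.mem_or_mem h with h' | h'
    · have e : (576 : R) = 2 ^ 6 * 3 ^ 2 := by norm_num
      rw [e] at h'
      rcases hpr.mem_or_mem h' with h'' | h''
      · exact h2 (hpr.mem_of_pow_mem _ h'')
      · exact h3 (hpr.mem_of_pow_mem _ h'')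
    · exact hpr.mem_of_pow_mem _ h'
  have hz : z ∈ P := by
    have ht' : 50 * z ^ 3 * ((U + 6 * z) * (U - 6 * z)) ∈ P := by
      have h := P.neg_mem ht
      unfold ft at h
      rwa [neg_neg] at h
    rcases hpr.mem_or_mem ht' with h | h
    · rcases hpr.mem_or_mem h with h' | h'
      · have e : (50 : R) = 2 * 5 ^ 2 := by norm_num
        rw [e] at h'
        rcases hpr.mem_or_mem h' with h'' | h''
        · exact h2 h''
        · exact h5 (hpr.mem_of_pow_mem _ h'')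
      · exact hpr.mem_of_pow_mem _ h'
    · rcases hpr.mem_or_mem h with h' | h'
      · apply h576
        have e : (576 : R) * z ^ 5 = (U + 6 * z) *
            (U ^ 4 - 6 * U ^ 3 * z - 39 * U ^ 2 * z ^ 2 + 234 * U * z ^ 3 + 96 * z ^ 4) -
            fs U z := by
          unfold fs
          ring
        rw [e]
        exact P.sub_mem (P.mul_mem_right _ h') hs
      · apply h576
        have e : (576 : R) * z ^ 5 = fs U z - (U - 6 * z) *
            (U ^ 4 + 6 * U ^ 3 * z - 39 * U ^ 2 * z ^ 2 - 234 * U * z ^ 3 + 96 * z ^ 4) := by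
          unfold fs
          ring
        rw [e]
        exact P.sub_mem hs (P.mul_mem_right _ h')
  have hUP : U ∈ P := by
    have e : U ^ 5 = fs U z - z * (-75 * U ^ 3 * z + 1500 * U * z ^ 3) := by
      unfold fs
      ring
    refine hpr.mem_of_pow_mem 5 ?_
    rw [e]
    exact P.sub_mem hs (P.mul_mem_right _ hz)
  exact not_both hU hP (P.mul_mem_left _ hz) (P.sub_mem hUP (P.mul_mem_left _ hz))

end

theorem t : LeafSym5 := by
  intro R _ D N hN hL
  have := isDomain D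
  have := charZero D
  refine near D (12 * 30 * N) (by omega) ?_
  obtain ⟨C₁, hC₁, hlow⟩ := hom_lower (fun p => fs p.1 p.2) (fun p => ft p.1 p.2)
    (by unfold fs; fun_prop) (by unfold ft; fun_prop) 5 (by norm_num)
    (fun t p => by simp only [Prod.smul_fst, Prod.smul_snd, smul_eq_mul]; unfold fs; ring)
    (fun t p => by simp only [Prod.smul_fst, Prod.smul_snd, smul_eq_mul]; unfold ft; ring)
    (by
      rintro ⟨U, z⟩ h1 h2
      simp only at h1 h2
      unfold ft at h2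
      have h3 : 50 * z ^ 3 * ((U + 6 * z) * (U - 6 * z)) = 0 := neg_eq_zero.1 h2
      have hz : z = 0 := by
        rcases mul_eq_zero.1 h3 with h4 | h4
        · have h5 := (mul_eq_zero.1 h4).resolve_left (by norm_num)
          exact (pow_eq_zero_iff (by norm_num)).1 h5
        · have h576 : (576 : ℂ) * z ^ 5 = 0 := by
            rcases mul_eq_zero.1 h4 with h5 | h5
            · have e : (576 : ℂ) * z ^ 5 = (U + 6 * z) *
                  (U ^ 4 - 6 * U ^ 3 * z - 39 * U ^ 2 * z ^ 2 + 234 * U * z ^ 3 + 96 * z ^ 4) -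
                  fs U z := by
                unfold fs
                ring
              rw [e, h5, h1]
              ring
            · have e : (576 : ℂ) * z ^ 5 = fs U z - (U - 6 * z) *
                  (U ^ 4 + 6 * U ^ 3 * z - 39 * U ^ 2 * z ^ 2 - 234 * U * z ^ 3 + 96 * z ^ 4) := by
                unfold fs
                ring
              rw [e, h5, h1]
              ring
          have h5 := (mul_eq_zero.1 h576).resolve_left (by norm_num)
          exact (pow_eq_zero_iff (by norm_num)).1 h5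
      have hU : U ^ 5 = 0 := by
        have e : U ^ 5 = fs U z - z * (-75 * U ^ 3 * z + 1500 * U * z ^ 3) := by
          unfold fs
          ring
        rw [e, h1, hz]
        ring
      rw [hz, (pow_eq_zero_iff (by norm_num)).1 hU]
      rfl)
  obtain ⟨C₂, hC₂, hup⟩ := hom_upper (fun p => (p.1 ^ 2 - 20 * p.2 ^ 2) *
    (p.1 ^ 2 - 45 * p.2 ^ 2)) (by fun_prop) 4
    (fun t p => by simp only [Prod.smul_fst, Prod.smul_snd, smul_eq_mul]; ring)
  set K : ℝ := 1 + 12 ^ 5 * C₁ + 16 * C₂ with hK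
  refine transferTri D 5 4 K (by rw [hK]; nlinarith) one_pos (by norm_num) ?_ hL
  rintro ⟨Z, Y, c⟩ htri hdvd
  obtain ⟨hab, hsum, ha, hb, hc⟩ := htri
  simp only at hab hsum ha hb hc hdvd
  right
  obtain ⟨r, hr⟩ := hdvd
  push_cast at hr
  set z : R := 30 * (N * r) with hz
  set U : R := Y + 6 * z with hU
  have hZ : Z = 12 * z := by rw [hr, hz]; ring
  have hY : Y = U - 6 * z := by rw [hU]; ring
  have hX : c = -(U + 6 * z) := by rw [hU]; linear_combination hsum - hZ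
  have h30 : (30 : R) ∣ z := ⟨N * r, hz⟩
  have hz0 : z ≠ 0 := by
    intro h0
    rw [hZ, h0, mul_zero] at ha
    exact ha rfl
  have hX0 : U + 6 * z ≠ 0 := by
    intro h0
    rw [hX, h0, neg_zero] at hc
    exact hc rfl
  have hY0 : U - 6 * z ≠ 0 := by rw [← hY]; exact hb
  have hcop : IsCoprime (12 * z) (U - 6 * z) := by rw [← hZ, ← hY]; exact hab
  have hzU : IsCoprime z U := by
    apply isCoprime_of_max
    intro P hP h1 h2
    exact not_both hcop hP (P.mul_mem_left _ h1) (P.sub_mem h2 (P.mul_mem_left _ h1))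
  have hst := coprime_st hcop h30
  have hnu : ¬ IsUnit z := not_unit_of_dvd D (n := 30) (by norm_num) (by push_cast; exact h30)
  have hA0 : U ^ 2 - 20 * z ^ 2 ≠ 0 := by
    intro h0
    apply hnu
    refine (hzU.pow_right (n := 2)).isUnit_of_dvd' dvd_rfl ⟨20 * z, ?_⟩
    linear_combination h0
  have hB0 : U ^ 2 - 45 * z ^ 2 ≠ 0 := by
    intro h0
    apply hnu
    refine (hzU.pow_right (n := 2)).isUnit_of_dvd' dvd_rfl ⟨45 * z, ?_⟩
    linear_combination h0
  have hw0 : (U ^ 2 - 20 * z ^ 2) * (U ^ 2 - 45 * z ^ 2) ≠ 0 := mul_ne_zero hA0 hB0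
  -- local sizes
  have hloc : ∀ i, ht D (Z, Y, c) i ≤ 12 * ‖(D.σ i U, D.σ i z)‖ := by
    intro i
    rw [Prod.norm_def]
    simp only [ht]
    have h1 := le_max_left ‖D.σ i U‖ ‖D.σ i z‖
    have h2 := le_max_right ‖D.σ i U‖ ‖D.σ i z‖
    have h3 : ‖D.σ i Z‖ = 12 * ‖D.σ i z‖ := by
      rw [hZ, map_mul, norm_mul]
      congr 1
      rw [map_ofNat]
      norm_num
    have h6 : ‖D.σ i (6 * z)‖ = 6 * ‖D.σ i z‖ := by
      rw [map_mul, norm_mul]
      congr 1
      rw [map_ofNat]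
      norm_num
    have h4 : ‖D.σ i Y‖ ≤ ‖D.σ i U‖ + 6 * ‖D.σ i z‖ := by
      rw [hY, map_sub, ← h6]
      exact norm_sub_le _ _
    have h5 : ‖D.σ i c‖ ≤ ‖D.σ i U‖ + 6 * ‖D.σ i z‖ := by
      rw [hX, map_neg, norm_neg, map_add, ← h6]
      exact norm_add_le _ _
    have h7 : 0 ≤ ‖D.σ i U‖ := norm_nonneg _
    refine max_le (max_le ?_ ?_) ?_ <;> linarith
  have hnp : ∀ i, ‖(D.σ i U, D.σ i z)‖ ≤ 2 * ht D (Z, Y, c) i := by
    intro i
    rw [Prod.norm_def]
    have h1 := ht_ge1 D (Z, Y, c) i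
    have h2 := ht_ge2 D (Z, Y, c) i
    simp only at h1 h2
    have h3 : ‖D.σ i Z‖ = 12 * ‖D.σ i z‖ := by
      rw [hZ, map_mul, norm_mul]
      congr 1
      rw [map_ofNat]
      norm_num
    have h6 : ‖D.σ i (6 * z)‖ = 6 * ‖D.σ i z‖ := by
      rw [map_mul, norm_mul]
      congr 1
      rw [map_ofNat]
      norm_num
    have h4 : ‖D.σ i U‖ ≤ ‖D.σ i Y‖ + 6 * ‖D.σ i z‖ := by
      rw [hU, map_add, ← h6]
      exact norm_add_le _ _
    have h5 : 0 ≤ ‖D.σ i z‖ := norm_nonneg _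
    refine max_le ?_ ?_ <;> linarith
  have h5s : ((5 : ℤ) : R) = 5 := by norm_num
  refine ⟨(fs U z, ft U z), ⟨hst, ?_, ?_, ?_, ?_⟩, ?_, (U ^ 2 - 20 * z ^ 2) * (U ^ 2 - 45 * z ^ 2),
    hw0, ?_, 5, ?_⟩
  · -- coprime to 5
    rw [h5s]
    apply isCoprime_of_max
    intro P hP h1 h2
    have h3 : ft U z ∈ P := by
      refine mem_of_dvd (x := (5 : R)) ⟨-(10 * z ^ 3 * ((U + 6 * z) * (U - 6 * z))), ?_⟩ h2
      unfold ft
      ring
    exact not_both hst hP h1 h3
  · -- the second member is nonzero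
    change ft U z ≠ 0
    unfold ft
    exact neg_ne_zero.2 (mul_ne_zero (mul_ne_zero (by norm_num) (pow_ne_zero _ hz0))
      (mul_ne_zero hX0 hY0))
  · change fs U z ^ 2 ≠ ((5 : ℤ) : R) * ft U z ^ 2
    rw [h5s]
    intro h0
    have h1 := ident U z
    rw [h0, sub_self] at h1
    exact mul_ne_zero (pow_ne_zero 3 hA0) (pow_ne_zero 2 hB0) h1.symm
  · change (N : R) ∣ ft U z
    refine ⟨-(50 * (30 * r) * z ^ 2 * ((U + 6 * z) * (U - 6 * z))), ?_⟩
    unfold ft
    have e : z ^ 3 = N * ((30 * r) * z ^ 2) := by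
      conv_lhs => rw [pow_succ' z 2]
      rw [hz]
      ring
    rw [e]
    ring
  · intro i
    have h1 := hlow (D.σ i U, D.σ i z)
    simp only at h1
    have e1 : fs (D.σ i U) (D.σ i z) = D.σ i (fs U z) := by
      unfold fs
      simp only [map_mul, map_add, map_sub, map_pow, map_ofNat]
    have e2 : ft (D.σ i U) (D.σ i z) = D.σ i (ft U z) := by
      unfold ft
      simp only [map_neg, map_mul, map_add, map_sub, map_pow, map_ofNat]
    rw [e1, e2] at h1
    have h0 : 0 ≤ max ‖D.σ i (fs U z)‖ ‖D.σ i (ft U z)‖ := (norm_nonneg _).trans (le_max_left _ _)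
    calc ht D (Z, Y, c) i ^ 5 ≤ (12 * ‖(D.σ i U, D.σ i z)‖) ^ 5 :=
          pow_le_pow_left₀ (ht_nonneg D _ i) (hloc i) 5
      _ = 12 ^ 5 * ‖(D.σ i U, D.σ i z)‖ ^ 5 := mul_pow _ _ _
      _ ≤ 12 ^ 5 * (C₁ * max ‖D.σ i (fs U z)‖ ‖D.σ i (ft U z)‖) :=
          mul_le_mul_of_nonneg_left h1 (by norm_num)
      _ = 12 ^ 5 * C₁ * max ‖D.σ i (fs U z)‖ ‖D.σ i (ft U z)‖ := by ring
      _ ≤ K * max ‖D.σ i (fs U z)‖ ‖D.σ i (ft U z)‖ :=
          mul_le_mul_of_nonneg_right (by rw [hK]; nlinarith) h0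
  · intro i
    have h1 := hup (D.σ i U, D.σ i z)
    have e1 : D.σ i ((U ^ 2 - 20 * z ^ 2) * (U ^ 2 - 45 * z ^ 2)) =
        (D.σ i U ^ 2 - 20 * D.σ i z ^ 2) * (D.σ i U ^ 2 - 45 * D.σ i z ^ 2) := by
      simp only [map_mul, map_sub, map_pow, map_ofNat]
    rw [e1]
    calc _ ≤ C₂ * ‖(D.σ i U, D.σ i z)‖ ^ 4 := h1
      _ ≤ C₂ * (2 * ht D (Z, Y, c) i) ^ 4 := by
          apply mul_le_mul_of_nonneg_left _ hC₂.le
          exact pow_le_pow_left₀ (norm_nonneg _) (hnp i) 4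
      _ = 16 * C₂ * ht D (Z, Y, c) i ^ 4 := by ring
      _ ≤ _ := mul_le_mul_of_nonneg_right (by rw [hK]; nlinarith) (pow_nonneg (ht_nonneg D _ i) _)
  · change ft U z * (fs U z ^ 2 - ((5 : ℤ) : R) * ft U z ^ 2) ∣
      (Z * Y * c * ((U ^ 2 - 20 * z ^ 2) * (U ^ 2 - 45 * z ^ 2))) ^ 5
    rw [h5s, ident, hX, hZ]
    have e2 : z ^ 2 = 900 * (N * r) ^ 2 := by rw [hz]; ring
    rw [hY]
    refine ⟨12 ^ 5 * 18 * (N * r) ^ 2 * ((U + 6 * z) * (U - 6 * z)) ^ 4 *
      (U ^ 2 - 20 * z ^ 2) ^ 2 * (U ^ 2 - 45 * z ^ 2) ^ 3, ?_⟩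
    have e4 : ∀ A B C E : R, (12 * z * C * -E * (A * B)) ^ 5 =
        -(50 * z ^ 3 * (E * C)) * (A ^ 3 * B ^ 2) * (12 ^ 5 * 18 * (N * r) ^ 2 * (E * C) ^ 4 *
          A ^ 2 * B ^ 3) := by
      intro A B C E
      linear_combination (-(12 ^ 5 * z ^ 3 * (E * C) ^ 5 * A ^ 5 * B ^ 5)) * e2
    exact e4 _ _ _ _

end Pool.Agent.N492.GA.Sym5
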